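import Pool.Agent.V1127.FbCHom

set_option autoImplicit false

namespace Pool.Agent.Results.MP_56a3d2_al.Cubulated

/-- `Γ` is a median graph: it is connected, and every three vertices have exactly one vertex lying on
geodesics between each two of them. Median graphs are exactly the one-skeleta of CAT(0) cube
complexes. -/
def IsMedianGraph {V : Type} (Γ : SimpleGraph V) : Prop :=
  Γ.Connected ∧
    ∀ x y z : V, ∃! m : V,
      Γ.dist x m + Γ.dist m y = Γ.dist x y ∧
      Γ.dist y m + Γ.dist m z = Γ.dist y z ∧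
      Γ.dist x m + Γ.dist m z = Γ.dist x z

/-- `G` acts freely and geometrically on a CAT(0) cube complex, given through its one-skeleton: a
locally finite median graph on which `G` acts by graph automorphisms, freely on vertices and with
finitely many orbits of vertices. -/
def ActsGeometricallyFreely (G : Type) [Group G] : Prop :=
  ∃ (V : Type) (_ : MulAction G V) (Γ : SimpleGraph V),
    Nonempty V ∧ IsMedianGraph Γ ∧
    (∀ v : V, (Γ.neighborSet v).Finite) ∧
    (∀ (g : G) (u v : V), Γ.Adj u v ↔ Γ.Adj (g • u) (g • v)) ∧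
    (∀ (g : G) (v : V), g • v = v → g = 1) ∧
    (∃ S : Finset V, ∀ v : V, ∃ g : G, ∃ s ∈ S, g • s = v)

/-- the mapping torus of an automorphism of the free group on three letters -/
abbrev MappingTorus (Φ : MulAut (FreeGroup (Fin 3))) : Type :=
  FreeGroup (Fin 3) ⋊[zpowersHom (MulAut (FreeGroup (Fin 3))) Φ] Multiplicative ℤ

/-- `Φ` is `a ↦ a`, `b ↦ a b`, `c ↦ b c b`, where `a, b, c` are the letters `0, 1, 2`. -/
def IsPhi (Φ : MulAut (FreeGroup (Fin 3))) : Prop :=
  Φ (FreeGroup.of 0) = FreeGroup.of 0 ∧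
  Φ (FreeGroup.of 1) = FreeGroup.of 0 * FreeGroup.of 1 ∧
  Φ (FreeGroup.of 2) = FreeGroup.of 1 * FreeGroup.of 2 * FreeGroup.of 1

open Pool.Agent.V1127.FbC Pool.Agent.W387 Pool.Agent.W387.SqSys

/-- The automorphism `a ↦ a`, `b ↦ a b`, `c ↦ b c b` exists and is unique, and its mapping torus acts
geometrically (even freely) on a CAT(0) cube complex. -/
theorem result :
    (∃! Φ : MulAut (FreeGroup (Fin 3)), IsPhi Φ) ∧
      ∀ Φ : MulAut (FreeGroup (Fin 3)), IsPhi Φ → ActsGeometricallyFreely (MappingTorus Φ) := by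
  constructor
  · refine ⟨Phi, ⟨?_, ?_, ?_⟩, ?_⟩
    · show phi (FreeGroup.of 0) = _
      simp [phi]
    · show phi (FreeGroup.of 1) = _
      simp [phi]
    · show phi (FreeGroup.of 2) = _
      simp [phi]
    · rintro Ψ ⟨h0, h1, h2⟩
      have key : Ψ.toMonoidHom = phi := by
        apply FreeGroup.ext_hom
        intro j
        fin_cases j
        · show Ψ (FreeGroup.of 0) = phi (FreeGroup.of 0)
          rw [h0]; simp [phi]
        · show Ψ (FreeGroup.of 1) = phi (FreeGroup.of 1)
          rw [h1]; simp [phi]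
        · show Ψ (FreeGroup.of 2) = phi (FreeGroup.of 2)
          rw [h2]; simp [phi]
      ext x
      exact DFunLike.congr_fun key x
  · rintro Φ ⟨ha, hb, hc⟩
    let f : MappingTorus Φ ≃* HH := iso Φ ha hb hc
    letI act : MulAction (MappingTorus Φ) Dt.sys.Vx := MulAction.compHom Dt.sys.Vx f.toMonoidHom
    have smul_eq : ∀ (g : MappingTorus Φ) (v : Dt.sys.Vx), g • v = f g • v := fun g v => rfl
    have adj : ∀ (h : HH) (u v : Dt.sys.Vx), Dt.sys.Cay.Adj u v → Dt.sys.Cay.Adj (h • u) (h • v) := by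
      rintro h u v ⟨a, e⟩
      refine ⟨a, ?_⟩
      rw [SqSys.smul_def, SqSys.smul_def, e, mul_assoc]
    refine ⟨Dt.sys.Vx, act, Dt.sys.Cay, ⟨⟨1⟩⟩, ⟨cay_connected, ?_⟩, ?_, ?_, ?_, ?_⟩
    · intro x y z
      simp only [cay_dist]
      obtain ⟨m, hm, hm2⟩ := medD.existsUnique x.g y.g z.g
      exact ⟨⟨m⟩, hm, fun m' hm' => Vx.ext (hm2 m'.g hm')⟩
    · intro v
      apply Set.Finite.subset (Set.finite_range (fun a => (⟨Dt.sys.gn a * v.g⟩ : Dt.sys.Vx)))
      rintro w ⟨a, h⟩
      exact ⟨a, Vx.ext h.symm⟩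
    · intro g u v
      constructor
      · exact adj (f g) u v
      · intro h
        have h2 := adj (f g)⁻¹ _ _ h
        rwa [smul_eq, smul_eq, inv_smul_smul, inv_smul_smul] at h2
    · intro g v h
      rw [smul_eq, SqSys.smul_def] at h
      have h2 : v.g * (f g)⁻¹ = v.g := congrArg Vx.g h
      have h3 : f g = 1 := by simpa using h2
      exact (map_eq_one_iff f f.injective).1 h3
    · refine ⟨{⟨1⟩}, fun v => ⟨f.symm (v.g⁻¹), ⟨1⟩, by simp, ?_⟩⟩
      rw [smul_eq, SqSys.smul_def]
      simp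

end Pool.Agent.Results.MP_56a3d2_al.Cubulated
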